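import Pool.Agent.Helper54.Poly
import Pool.Agent.Helper54.Bump
import Pool.Agent.Helper54.Concrete

set_option autoImplicit false

namespace Pool.Agent.Results.MP_d64d0b_an.Q2Negative

/-- There is a nonseparable real Banach space carrying a bump that depends locally on finitely
many coordinates on the whole space, and carrying no equivalent polyhedral norm. -/
theorem result :
    ∃ (X : Type) (_ : NormedAddCommGroup X) (_ : NormedSpace ℝ X),
      CompleteSpace X ∧ ¬ TopologicalSpace.SeparableSpace X ∧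
      (∃ b : X → ℝ, Continuous b ∧ Bornology.IsBounded (Function.support b) ∧
        (Function.support b).Nonempty ∧
        ∀ x : X, ∃ O : Set X, IsOpen O ∧ x ∈ O ∧
          ∃ (n : ℕ) (φ : Fin n → X →L[ℝ] ℝ) (g : (Fin n → ℝ) → ℝ),
            ∀ y ∈ O, b y = g (fun i => φ i y)) ∧
      ¬ (∃ N : Seminorm ℝ X,
          (∃ c C : ℝ, 0 < c ∧ ∀ x : X, c * ‖x‖ ≤ N x ∧ N x ≤ C * ‖x‖) ∧
          ∀ E : Submodule ℝ X, FiniteDimensional ℝ E →
            ∃ (n : ℕ) (φ : Fin n → X →L[ℝ] ℝ) (a : Fin n → ℝ),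
              ∀ x ∈ E, (N x ≤ 1 ↔ ∀ i, φ i x ≤ a i)) := by
  exact ⟨Pool.Agent.Helper54.treeSpace, inferInstance, inferInstance, inferInstance,
    Pool.Agent.Helper54.treeSpace_not_separable,
    ⟨Pool.Agent.Helper54.TreeModel.bump Pool.Agent.Helper54.model,
      Pool.Agent.Helper54.TreeModel.bump_continuous _ Pool.Agent.Helper54.Node.treeAx,
      Pool.Agent.Helper54.TreeModel.bump_support_bounded _ Pool.Agent.Helper54.Node.treeAx,
      Pool.Agent.Helper54.TreeModel.bump_support_nonempty _ Pool.Agent.Helper54.Node.treeAx,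
      Pool.Agent.Helper54.TreeModel.bump_lfc _ Pool.Agent.Helper54.Node.treeAx⟩,
    Pool.Agent.Helper54.not_polyhedral Pool.Agent.Helper54.model
      Pool.Agent.Helper54.Node.treeAx⟩

end Pool.Agent.Results.MP_d64d0b_an.Q2Negative
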